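import Pool.Agent.Lib.MP_688fd0_co.OSF.H16.Flipsel
import Pool.Agent.Lib.MP_688fd0_co.OSF.H43.Glue

/-!
SELECT: the choice of the versions of the slots; `J` equal slots for each prime.
-/

set_option autoImplicit false

namespace Pool.Agent.Lib.MP_688fd0_co.SQ2

open Pool.Agent.Lib.MP_688fd0_co.OSF

universe u v

/-- SELECT. -/
theorem select {Q : Type u} [Group Q] [Fintype Q] {B : Lb.{u, v} Q} {m : ℕ} (hm : Odd m) (V : Vd B (ZMod m))
    {κ : Type} [Fintype κ] (J : ℕ) (hJ : J = 2 ^ m.primeFactors.card * (m.primeFactors.card + 2))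
    (sl : m.primeFactors → Fin J → κ) (hinj : ∀ q i q' i', sl q i = sl q' i' → q = q' ∧ i = i')
    (T : Tour B) (D : κ → ∀ p : ℕ, p ∈ m.primeFactors → ZMod p)
    (δ : m.primeFactors → ∀ p : ℕ, p ∈ m.primeFactors → ZMod p)
    (hD : ∀ q i p hp, D (sl q i) p hp = δ q p hp) (hδ : ∀ p (hp : p ∈ m.primeFactors), δ ⟨p, hp⟩ p hp ≠ 0)
    (hT : ∀ c : κ → Bool, ∃ T' : Tour B, ∀ p (hp : p ∈ m.primeFactors),
      (V.map (red (Nat.dvd_of_mem_primeFactors hp))).tvol T' =
        (V.map (red (Nat.dvd_of_mem_primeFactors hp))).tvol T + ∑ k, if c k then D k p hp else 0) :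
    ∃ T' : Tour B, IsUnit (V.tvol T') := by
  classical
  have hm0 : m ≠ 0 := by
    rintro rfl
    exact absurd hm (by decide)
  obtain ⟨j, hj1, hj2⟩ := H43.numsel m.primeFactors (fun p hp => ⟨Nat.prime_of_mem_primeFactors hp, by
      rintro rfl
      have : 2 ∣ m := Nat.dvd_of_mem_primeFactors hp
      exact (Nat.not_even_iff_odd.mpr hm) (even_iff_two_dvd.mpr this)⟩)
    (fun p => if hp : p ∈ m.primeFactors then (V.map (red (Nat.dvd_of_mem_primeFactors hp))).tvol T else 0)
    (fun q p => if hq : q ∈ m.primeFactors then if hp : p ∈ m.primeFactors then δ ⟨q, hq⟩ p hp else 0 else 0)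
    (fun p hp => by rw [dif_pos hp, dif_pos hp]; exact hδ p hp)
  rw [← hJ] at hj1
  obtain ⟨T', hT'⟩ := hT fun k => decide (∃ q i, sl q i = k ∧ (i : ℕ) < j q)
  refine ⟨T', H16.isUnit_of_red hm0 _ fun p hp => ?_⟩
  have h1 := hT' p hp
  rw [H16.tvol_map] at h1
  rw [h1]
  have h2 := hj2 p hp
  rw [dif_pos hp] at h2
  have e1 : (∑ k, if (decide (∃ q i, sl q i = k ∧ (i : ℕ) < j q) : Bool) then D k p hp else 0) =
      ∑ q ∈ m.primeFactors, (j q : ZMod p) * (if hq : q ∈ m.primeFactors then
        if hp : p ∈ m.primeFactors then δ ⟨q, hq⟩ p hp else 0 else 0) := by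
    have e2 : ∑ q ∈ m.primeFactors, (j q : ZMod p) * (if hq : q ∈ m.primeFactors then
        if hp : p ∈ m.primeFactors then δ ⟨q, hq⟩ p hp else 0 else 0) =
        ∑ q : m.primeFactors, (j q : ZMod p) * δ q p hp := by
      rw [← Finset.sum_coe_sort]
      refine Finset.sum_congr rfl fun q _ => ?_
      rw [dif_pos q.2, dif_pos hp]
    have e3 : ∀ q : m.primeFactors, (j q : ZMod p) * δ q p hp =
        ∑ i : Fin J, if (i : ℕ) < j q then δ q p hp else 0 := by
      intro q
      rw [← Finset.sum_filter, Finset.sum_const, nsmul_eq_mul]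
      congr 2
      have h3 := hj1 q q.2
      have h4 : (Finset.univ.filter fun i : Fin J => (i : ℕ) < j q).card = j q := by
        rw [← Finset.card_image_of_injective _ Fin.val_injective]
        have h5 : (Finset.univ.filter fun i : Fin J => (i : ℕ) < j q).image Fin.val = Finset.range (j q) := by
          ext x
          rw [Finset.mem_image, Finset.mem_range]
          constructor
          · rintro ⟨i, hi, rfl⟩
            exact (Finset.mem_filter.1 hi).2
          · intro hx
            exact ⟨⟨x, lt_trans hx h3⟩, Finset.mem_filter.2 ⟨Finset.mem_univ _, hx⟩, rfl⟩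
        rw [h5, Finset.card_range]
      rw [h4]
    rw [e2, Finset.sum_congr rfl fun q _ => e3 q]
    have e4 : ∀ k, (if (decide (∃ q i, sl q i = k ∧ (i : ℕ) < j q) : Bool) then D k p hp else 0) =
        ∑ q : m.primeFactors, ∑ i : Fin J, if sl q i = k then (if (i : ℕ) < j q then δ q p hp else 0) else 0 := by
      intro k
      by_cases hk : ∃ q i, sl q i = k
      · obtain ⟨q, i, rfl⟩ := hk
        rw [Finset.sum_eq_single q, Finset.sum_eq_single i, if_pos rfl, hD]
        · by_cases hi : (i : ℕ) < j q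
          · rw [if_pos hi, if_pos (decide_eq_true ⟨q, i, rfl, hi⟩)]
          · rw [if_neg hi, if_neg]
            intro h
            obtain ⟨q', i', h3, h4⟩ := of_decide_eq_true h
            obtain ⟨rfl, rfl⟩ := hinj _ _ _ _ h3
            exact hi h4
        · intro i' _ hne
          rw [if_neg (fun h => hne (hinj _ _ _ _ h).2)]
        · intro h; exact absurd (Finset.mem_univ _) h
        · intro q' _ hne
          refine Finset.sum_eq_zero fun i' _ => ?_
          rw [if_neg (fun h => hne (hinj _ _ _ _ h).1)]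
        · intro h; exact absurd (Finset.mem_univ _) h
      · rw [if_neg]
        · symm
          refine Finset.sum_eq_zero fun q _ => Finset.sum_eq_zero fun i _ => ?_
          rw [if_neg (fun h => hk ⟨q, i, h⟩)]
        · intro h
          obtain ⟨q, i, h3, -⟩ := of_decide_eq_true h
          exact hk ⟨q, i, h3⟩
    rw [Finset.sum_congr rfl fun k _ => e4 k, Finset.sum_comm]
    refine Finset.sum_congr rfl fun q _ => ?_
    rw [Finset.sum_comm]
    refine Finset.sum_congr rfl fun i _ => ?_
    rw [Finset.sum_ite_eq]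
    rw [if_pos (Finset.mem_univ _)]
  rw [e1]
  exact h2

end Pool.Agent.Lib.MP_688fd0_co.SQ2
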